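import Pool.Agent.H54.RH.Targets

/-!
# MP_def5ca_co, board rhx, row SO: orientability after stacking
-/

set_option autoImplicit false

namespace Pool.Agent.H59.RHX

open Pool.Agent.H54.RH

variable {n : ℕ}

/-- comparison of two places -/
def ta (a b : Fin n) : ZMod 2 := if b < a then 1 else 0

theorem z2 (x : ZMod 2) : x + x = 0 := by revert x; decide

theorem ta_add {a b : Fin n} (h : a ≠ b) : ta a b + ta b a = 1 := by
  unfold ta
  rcases lt_or_gt_of_ne h with h | h
  · simp [h, not_lt_of_gt h]
  · simp [h, not_lt_of_gt h]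

theorem z11 : (1 : ZMod 2) + 1 = 0 := by decide

theorem btw_z (g : W n) (k l : Fin n) (hl : g l ≠ 1) :
    ((H54.RH.btw g k l : ℕ) : ZMod 2) = ∑ s ∈ (act g).erase k, (ta s k + ta s l) := by
  classical
  have h1 : (act g).erase k = Finset.univ.filter (fun t => t ≠ k ∧ g t = 1) := by
    ext t; simp [act]
  rw [h1, Finset.sum_filter]
  unfold H54.RH.btw
  rw [Finset.card_filter, Nat.cast_sum]
  refine Finset.sum_congr rfl fun t _ => ?_
  by_cases ht : g t = 1
  · by_cases hk : t = k
    · subst hk; simp
    · have hl' : t ≠ l := fun h => hl (h ▸ ht)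
      simp only [ht, true_and, ne_eq, hk, not_false_eq_true, and_self, if_true]
      unfold ta
      rcases lt_or_gt_of_ne hk with h2 | h2 <;> rcases lt_or_gt_of_ne hl' with h3 | h3 <;>
        simp [h2, h3, not_lt_of_gt h2, not_lt_of_gt h3, z11]
  · simp [ht]

theorem par (x y : ZMod 2) (c : ℕ) :
    ((decide (x = 1) = decide (y = 1)) ↔ Odd c) ↔ x + y = 1 + (c : ZMod 2) := by
  rcases Nat.even_or_odd c with h | h
  · have h1 : (c : ZMod 2) = 0 := (ZMod.natCast_eq_zero_iff_even).2 h
    have h2 : ¬ Odd c := Nat.not_odd_iff_even.2 h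
    rw [h1]
    simp only [h2, iff_false]
    revert x y
    decide
  · have h1 : (c : ZMod 2) = 1 := (ZMod.natCast_eq_one_iff_odd).2 h
    rw [h1]
    simp only [h, iff_true]
    revert x y
    decide

theorem orw_iff (M : Finset (W n)) : Orw M ↔ ∃ f : W n → ZMod 2, ∀ h ∈ M, ∀ k l, h k = 1 →
    h l ≠ 1 → sw h k l ∈ M → f (sw h k l) + f h = 1 + ((H54.RH.btw h k l : ℕ) : ZMod 2) := by
  constructor
  · rintro ⟨s, hs⟩
    refine ⟨fun h => if s h then 1 else 0, fun h hh k l hk hl hm => ?_⟩
    rw [← par]
    have h1 := hs h hh k l hk hl hm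
    rw [← h1]
    beta_reduce
    cases s (sw h k l) <;> cases s h <;> simp
  · rintro ⟨f, hf⟩
    refine ⟨fun h => decide (f h = 1), fun h hh k l hk hl hm => ?_⟩
    exact (par _ _ _).2 (hf h hh k l hk hl hm)

theorem act_sw (g : W n) (k l : Fin n) (hk : g k = 1) (hl : g l ≠ 1) :
    act (sw g k l) = insert l ((act g).erase k) := by
  ext t
  have hkl : k ≠ l := fun h => hl (h ▸ hk)
  simp only [act, Finset.mem_filter, Finset.mem_univ, true_and, Finset.mem_insert,
    Finset.mem_erase]
  by_cases h1 : t = k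
  · subst h1; simp [sw, hl, hkl]
  · by_cases h2 : t = l
    · subst h2; simp [sw, h1, hk]
    · simp [sw, h1, h2]

/-- the number of the letters 1 behind `t` -/
def Nn (g : W n) (t : Fin n) : ZMod 2 := ∑ s ∈ act g, ta s t

theorem Nn_eq (g : W n) (k t : Fin n) (hk : g k = 1) :
    Nn g t = ta k t + ∑ s ∈ (act g).erase k, ta s t := by
  exact (Finset.add_sum_erase (act g) (fun s => ta s t) (by simp [act, hk])).symm

theorem Nn_sw (g : W n) (k l t : Fin n) (hk : g k = 1) (hl : g l ≠ 1) :
    Nn (sw g k l) t = ta l t + ∑ s ∈ (act g).erase k, ta s t := by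
  unfold Nn
  rw [act_sw g k l hk hl, Finset.sum_insert]
  simp [act, hl]

/-- in `P` the word has one letter 0 and one letter 2 -/
def ZY (P : Finset (Fin n)) (g : W n) (z y : Fin n) : Prop :=
  z ∈ P ∧ y ∈ P ∧ g z = 0 ∧ g y = 2 ∧ ∀ t ∈ P, t ≠ z → t ≠ y → g t = 1

/-- the parity of the number of inversions -/
def Bb (P : Finset (Fin n)) (g : W n) : ZMod 2 :=
  ∑ z ∈ P.filter (fun t => g t = 0), Nn g z + ∑ y ∈ P.filter (fun t => g t = 2), Nn g y +
    ∑ z ∈ P.filter (fun t => g t = 0), ∑ y ∈ P.filter (fun t => g t = 2), ta z y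

theorem Bb_eq (P : Finset (Fin n)) (g : W n) (z y : Fin n) (h : ZY P g z y) :
    Bb P g = Nn g z + Nn g y + ta z y := by
  obtain ⟨hz, hy, gz, gy, ho⟩ := h
  have h1 : P.filter (fun t => g t = 0) = {z} := by
    ext t
    simp only [Finset.mem_filter, Finset.mem_singleton]
    constructor
    · rintro ⟨h1, h2⟩
      by_contra h3
      by_cases h4 : t = y
      · subst h4; rw [gy] at h2; exact absurd h2 (by decide)
      · rw [ho t h1 h3 h4] at h2; exact absurd h2 (by decide)
    · rintro rfl; exact ⟨hz, gz⟩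
  have h2 : P.filter (fun t => g t = 2) = {y} := by
    ext t
    simp only [Finset.mem_filter, Finset.mem_singleton]
    constructor
    · rintro ⟨h1, h2⟩
      by_contra h3
      by_cases h4 : t = z
      · subst h4; rw [gz] at h2; exact absurd h2 (by decide)
      · rw [ho t h1 h4 h3] at h2; exact absurd h2 (by decide)
    · rintro rfl; exact ⟨hy, gy⟩
  unfold Bb
  rw [h1, h2]
  simp

theorem sw_k (g : W n) (k l : Fin n) : sw g k l k = g l := by simp [sw]
theorem sw_l (g : W n) (k l : Fin n) : sw g k l l = g k := by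
  by_cases h : l = k
  · subst h; simp [sw]
  · simp [sw, h]
theorem sw_o (g : W n) (k l t : Fin n) (h1 : t ≠ k) (h2 : t ≠ l) : sw g k l t = g t := by
  simp [sw, h1, h2]

theorem Bb_sw (P : Finset (Fin n)) (g : W n) (z y k l : Fin n) (h : ZY P g z y) (hkP : k ∈ P)
    (hlP : l ∈ P) (hk : g k = 1) (hl : g l ≠ 1) :
    Bb P (sw g k l) + Bb P g = 1 + ((H54.RH.btw g k l : ℕ) : ZMod 2) := by
  have hB := Bb_eq P g z y h
  obtain ⟨hz, hy, gz, gy, ho⟩ := h
  have hkz : k ≠ z := fun h => by rw [h, gz] at hk; exact absurd hk (by decide)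
  have hky : k ≠ y := fun h => by rw [h, gy] at hk; exact absurd hk (by decide)
  have hzy : z ≠ y := fun h => by rw [h, gy] at gz; exact absurd gz (by decide)
  have two0 : (2 : ZMod 2) = 0 := by decide
  rw [btw_z g k l hl, Finset.sum_add_distrib, hB]
  by_cases hlz : l = z
  · subst hlz
    have h1 : ZY P (sw g k l) k y := by
      refine ⟨hkP, hy, ?_, ?_, ?_⟩
      · rw [sw_k, gz]
      · rw [sw_o _ _ _ _ hky.symm hzy.symm, gy]
      · intro t ht h1 h2
        by_cases h3 : t = l
        · subst h3; rw [sw_l, hk]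
        · rw [sw_o _ _ _ _ h1 h3]; exact ho t ht h3 h2
    rw [Bb_eq P _ k y h1, Nn_sw g k l k hk hl, Nn_sw g k l y hk hl, Nn_eq g k l hk,
      Nn_eq g k y hk]
    have a1 := ta_add hkz
    linear_combination a1 + (ta k y + ta l y + ∑ s ∈ (act g).erase k, ta s y) * two0
  · have hly : l = y := by
      by_contra h3
      exact hl (ho l hlP hlz h3)
    subst hly
    have h1 : ZY P (sw g k l) z k := by
      refine ⟨hz, hkP, ?_, ?_, ?_⟩
      · rw [sw_o _ _ _ _ hkz.symm hzy, gz]
      · rw [sw_k, gy]
      · intro t ht h1 h2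
        by_cases h3 : t = l
        · subst h3; rw [sw_l, hk]
        · rw [sw_o _ _ _ _ h2 h3]; exact ho t ht h1 h3
    rw [Bb_eq P _ z k h1, Nn_sw g k l z hk hl, Nn_sw g k l k hk hl, Nn_eq g k l hk,
      Nn_eq g k z hk]
    have a1 := ta_add hkz
    have a2 := ta_add hzy
    have a3 := ta_add hky
    linear_combination a1 + a2 + a3 + (∑ s ∈ (act g).erase k, ta s z + 1) * two0

theorem up_zero (h : W n) : up h 0 = 0 := rfl
theorem up_succ (h : W n) (t : Fin n) : up h t.succ = h t := rfl

theorem act_up (h : W n) : act (up h) = (act h).map (Fin.succEmb n) := by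
  ext t
  simp only [act, Finset.mem_filter, Finset.mem_univ, true_and, Finset.mem_map, Fin.coe_succEmb]
  refine Fin.cases ?_ (fun t => ?_) t
  · simp [up_zero, Fin.succ_ne_zero]
  · simp [up_succ]

theorem btw_up (h : W n) (k l : Fin n) : H54.RH.btw (up h) k.succ l.succ = H54.RH.btw h k l := by
  unfold H54.RH.btw
  have h1 : (Finset.univ.filter fun t : Fin (n + 1) => up h t = 1 ∧
      ((k.succ < t ∧ t < l.succ) ∨ (l.succ < t ∧ t < k.succ))) =
      (Finset.univ.filter fun t : Fin n => h t = 1 ∧ ((k < t ∧ t < l) ∨ (l < t ∧ t < k))).map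
        (Fin.succEmb n) := by
    ext t
    simp only [Finset.mem_filter, Finset.mem_univ, true_and, Finset.mem_map, Fin.coe_succEmb]
    refine Fin.cases ?_ (fun t => ?_) t
    · simp [up_zero, Fin.succ_ne_zero]
    · simp [up_succ]
  rw [h1, Finset.card_map]

theorem btw_symm (h : W n) (k l : Fin n) (hk : h k = 1) (hl : h l ≠ 1) :
    H54.RH.btw (sw h k l) l k = H54.RH.btw h k l := by
  unfold H54.RH.btw
  congr 1
  ext t
  simp only [Finset.mem_filter, Finset.mem_univ, true_and]
  by_cases h1 : t = k
  · subst h1; simp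
  · by_cases h2 : t = l
    · subst h2; simp
    · rw [sw_o _ _ _ _ h1 h2]
      constructor
      · rintro ⟨h3, h4⟩; exact ⟨h3, h4.symm⟩
      · rintro ⟨h3, h4⟩; exact ⟨h3, h4.symm⟩

theorem blk_zy (q : W n) (hq : (act q).card = 4) (g : W (n + 1)) (hg : g ∈ blk q) :
    ∃ z y, ZY (act (Fin.cons 1 q : W (n + 1))) g z y := by
  classical
  simp only [blk, Finset.mem_filter, Finset.mem_univ, true_and] at hg
  obtain ⟨g1, g2, g3⟩ := hg
  set P := act (Fin.cons 1 q : W (n + 1)) with hP
  have mP0 : (0 : Fin (n + 1)) ∈ P := by simp [hP, act]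
  have mPs : ∀ t : Fin n, t.succ ∈ P ↔ q t = 1 := by intro t; simp [hP, act]
  have hPc : P.card = 5 := by
    have h1 : P = insert 0 ((act q).map (Fin.succEmb n)) := by
      ext t
      refine Fin.cases ?_ (fun t => ?_) t
      · simp [mP0]
      · simp [mPs, act, Fin.succ_ne_zero]
    rw [h1, Finset.card_insert_of_notMem, Finset.card_map, hq]
    simp [Fin.succ_ne_zero]
  have hsub : act g ⊆ P := by
    intro t
    refine Fin.cases ?_ (fun t => ?_) t
    · intro _; exact mP0
    · intro ht
      rw [mPs]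
      by_contra h
      have h2 := g1 t h
      simp only [act, Finset.mem_filter, Finset.mem_univ, true_and] at ht
      exact h (h2 ▸ ht)
  have hd : (P \ act g).card = 2 := by
    rw [Finset.card_sdiff_of_subset hsub, hPc, g2]
  have ho : two g \ P = (two q).map (Fin.succEmb n) := by
    ext t
    refine Fin.cases ?_ (fun t => ?_) t
    · simp [mP0, Fin.succ_ne_zero]
    · simp only [Finset.mem_sdiff, mPs, two, Finset.mem_filter, Finset.mem_univ, true_and,
        Finset.mem_map, Fin.coe_succEmb, Fin.succ_inj, exists_eq_right]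
      constructor
      · rintro ⟨h1, h2⟩; rw [← g1 t h2]; exact h1
      · intro h1
        have h2 : q t ≠ 1 := by rw [h1]; decide
        exact ⟨(g1 t h2).trans h1, h2⟩
  have hi : (two g ∩ P).card = 1 := by
    have h1 := Finset.card_sdiff_add_card_inter (two g) P
    rw [ho, Finset.card_map, g3] at h1
    omega
  obtain ⟨y, hy⟩ := Finset.card_eq_one.1 hi
  have hy1 : y ∈ two g ∩ P := by rw [hy]; simp
  have hy2 : g y = 2 := by
    have := (Finset.mem_inter.1 hy1).1
    simpa [two] using this
  have hyP : y ∈ P := (Finset.mem_inter.1 hy1).2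
  have hyd : y ∈ P \ act g := by
    rw [Finset.mem_sdiff]
    refine ⟨hyP, ?_⟩
    simp only [act, Finset.mem_filter, Finset.mem_univ, true_and, hy2]
    decide
  have he : ((P \ act g).erase y).card = 1 := by
    rw [Finset.card_erase_of_mem hyd, hd]
  obtain ⟨z, hz⟩ := Finset.card_eq_one.1 he
  have hz1 : z ∈ (P \ act g).erase y := by rw [hz]; simp
  have hz2 := Finset.mem_erase.1 hz1
  have hz3 := Finset.mem_sdiff.1 hz2.2
  have hz4 : g z ≠ 1 := by
    intro h
    apply hz3.2
    simp [act, h]
  have hz5 : g z ≠ 2 := by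
    intro h
    have : z ∈ two g ∩ P := by
      rw [Finset.mem_inter]
      exact ⟨by simp [two, h], hz3.1⟩
    rw [hy, Finset.mem_singleton] at this
    exact hz2.1 this
  refine ⟨z, y, hz3.1, hyP, ?_, hy2, ?_⟩
  · revert hz4 hz5
    generalize g z = a
    revert a
    decide
  · intro t ht h1 h2
    by_contra h3
    have : t ∈ (P \ act g).erase y := by
      rw [Finset.mem_erase, Finset.mem_sdiff]
      exact ⟨h2, ht, by simp [act, h3]⟩
    rw [hz, Finset.mem_singleton] at this
    exact h1 this

theorem two_up (h : W n) : two (up h) = (two h).map (Fin.succEmb n) := by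
  ext t
  simp only [two, Finset.mem_filter, Finset.mem_univ, true_and, Finset.mem_map, Fin.coe_succEmb]
  refine Fin.cases ?_ (fun t => ?_) t
  · simp [up_zero, Fin.succ_ne_zero]
  · simp [up_succ]

theorem up_sw (h : W n) (k l : Fin n) : sw (up h) k.succ l.succ = up (sw h k l) := by
  funext t
  refine Fin.cases ?_ (fun t => ?_) t
  · simp [sw, up_zero, (Fin.succ_ne_zero _).symm]
  · simp [sw, up_succ]

theorem up_tail (g : W (n + 1)) (h : g 0 = 0) : up (Fin.tail g) = g := by
  funext t
  refine Fin.cases ?_ (fun t => ?_) t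
  · rw [up_zero, h]
  · rfl

theorem cell (q : W n) (hq : (act q).card = 4) (w : Fin n) (hw : q w = 1) :
    up (Function.update q w 2) ∈ blk q := by
  classical
  simp only [blk, Finset.mem_filter, Finset.mem_univ, true_and]
  refine ⟨?_, ?_, ?_⟩
  · intro t ht
    have h1 : t ≠ w := fun h => ht (h ▸ hw)
    rw [up_succ, Function.update_of_ne h1]
  · rw [act_up, Finset.card_map]
    have h1 : act (Function.update q w 2) = (act q).erase w := by
      ext t
      simp only [act, Finset.mem_filter, Finset.mem_univ, true_and, Finset.mem_erase]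
      by_cases h : t = w
      · subst h; simp
      · simp [h]
    rw [h1, Finset.card_erase_of_mem (by simp [act, hw]), hq]
  · rw [two_up, Finset.card_map]
    have h1 : two (Function.update q w 2) = insert w (two q) := by
      ext t
      simp only [two, Finset.mem_filter, Finset.mem_univ, true_and, Finset.mem_insert]
      by_cases h : t = w
      · subst h; simp
      · simp [h]
    rw [h1, Finset.card_insert_of_notMem (by simp [two, hw])]

theorem blkr (q : W n) (hq : (act q).card = 4) (g : W (n + 1)) (hg : g ∈ blk q)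
    (k l : Fin (n + 1)) (hk : g k = 1) (hl : g l ≠ 1) (hs : sw g k l ∈ blk q) :
    Bb (act (Fin.cons 1 q : W (n + 1))) (sw g k l) + Bb (act (Fin.cons 1 q : W (n + 1))) g =
      1 + ((H54.RH.btw g k l : ℕ) : ZMod 2) := by
  obtain ⟨z, y, hzy⟩ := blk_zy q hq g hg
  refine Bb_sw _ g z y k l hzy ?_ ?_ hk hl
  · simp only [blk, Finset.mem_filter, Finset.mem_univ, true_and] at hg
    simp only [act, Finset.mem_filter, Finset.mem_univ, true_and]
    revert hk
    refine Fin.cases ?_ (fun t => ?_) k
    · intro _; simp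
    · intro hk
      by_contra h
      rw [Fin.cons_succ] at h
      exact h ((hg.1 t h) ▸ hk)
  · simp only [blk, Finset.mem_filter, Finset.mem_univ, true_and] at hs
    simp only [act, Finset.mem_filter, Finset.mem_univ, true_and]
    have h1 := sw_l g k l
    have h2 := hs.1
    revert h1 h2
    generalize sw g k l = g'
    refine Fin.cases ?_ (fun t => ?_) l
    · intro _ _; simp
    · intro h1 h2
      by_contra h
      rw [Fin.cons_succ] at h
      rw [h2 t h, hk] at h1
      exact h h1

/-- the mixed case -/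
theorem mixed (q : W n) (hq : (act q).card = 4) (M : Finset (W n))
    (hM : ∀ w, q w = 1 → Function.update q w 2 ∈ M) (f : W n → ZMod 2)
    (hf : ∀ h ∈ M, ∀ k l, h k = 1 → h l ≠ 1 → sw h k l ∈ M →
      f (sw h k l) + f h = 1 + ((H54.RH.btw h k l : ℕ) : ZMod 2)) (e : ZMod 2)
    (he : ∀ w, q w = 1 → Bb (act (Fin.cons 1 q : W (n + 1))) (up (Function.update q w 2)) +
      f (Function.update q w 2) = e)
    (h : W n) (hh : h ∈ M) (hc : ∀ w, q w = 1 → h ≠ Function.update q w 2) (k : Fin n)
    (hk : h k = 1) (hs : sw (up h) k.succ 0 ∈ blk q) :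
    1 + Bb (act (Fin.cons 1 q : W (n + 1))) (sw (up h) k.succ 0) + e + f h =
      1 + ((H54.RH.btw (up h) k.succ 0 : ℕ) : ZMod 2) := by
  obtain ⟨z', y', hz', hy', gz, gy, ho⟩ := blk_zy q hq _ hs
  have hs1 := hs
  simp only [blk, Finset.mem_filter, Finset.mem_univ, true_and] at hs1
  obtain ⟨b1, b2, b3⟩ := hs1
  have w0 : sw (up h) k.succ 0 0 = 1 := by rw [sw_l, up_succ, hk]
  have wk : sw (up h) k.succ 0 k.succ = 0 := by rw [sw_k, up_zero]
  have wt : ∀ t, t ≠ k → sw (up h) k.succ 0 t.succ = h t := by
    intro t ht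
    rw [sw_o _ _ _ _ (by simpa using ht) (Fin.succ_ne_zero _), up_succ]
  obtain ⟨z, rfl⟩ : ∃ z : Fin n, z' = z.succ := by
    refine ⟨z'.pred ?_, (Fin.succ_pred _ _).symm⟩
    rintro rfl
    rw [w0] at gz
    exact absurd gz (by decide)
  obtain ⟨y, rfl⟩ : ∃ y : Fin n, y' = y.succ := by
    refine ⟨y'.pred ?_, (Fin.succ_pred _ _).symm⟩
    rintro rfl
    rw [w0] at gy
    exact absurd gy (by decide)
  have qz : q z = 1 := by simpa [act] using hz'
  have qy : q y = 1 := by simpa [act] using hy'
  have hyk : y ≠ k := by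
    rintro rfl
    rw [wk] at gy
    exact absurd gy (by decide)
  have hy2 : h y = 2 := by rw [← wt y hyk, gy]
  have hzy : z ≠ y := by
    rintro rfl
    rw [gz] at gy
    exact absurd gy (by decide)
  have ho' : ∀ t, q t = 1 → t ≠ z → t ≠ y → sw (up h) k.succ 0 t.succ = 1 := by
    intro t ht h1 h2
    exact ho t.succ (by simp [act, ht]) (by simpa using h1) (by simpa using h2)
  -- the place k does not belong to the cell
  have qk : q k ≠ 1 := by
    intro qk
    have hzk : k = z := by
      by_contra h1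
      have := ho' k qk h1 hyk.symm
      rw [wk] at this
      exact absurd this (by decide)
    subst hzk
    refine hc y qy ?_
    funext t
    by_cases h1 : t = y
    · subst h1; rw [Function.update_self, hy2]
    · rw [Function.update_of_ne h1]
      by_cases h2 : t = k
      · subst h2; rw [hk, qk]
      · rw [← wt t h2]
        by_cases h3 : q t = 1
        · rw [ho' t h3 h2 h1, h3]
        · exact b1 t h3
  have qk0 : q k = 0 := by rw [← b1 k qk, wk]
  have hzk : z ≠ k := fun h1 => qk (h1 ▸ qz)
  have hz0 : h z = 0 := by rw [← wt z hzk, gz]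
  have hcy : sw h k z = Function.update q y 2 := by
    funext t
    by_cases h1 : t = y
    · subst h1; rw [Function.update_self, sw_o _ _ _ _ hyk hzy.symm, hy2]
    · rw [Function.update_of_ne h1]
      by_cases h2 : t = k
      · subst h2; rw [sw_k, hz0, qk0]
      · by_cases h3 : t = z
        · subst h3; rw [sw_l, hk, qz]
        · rw [sw_o _ _ _ _ h2 h3, ← wt t h2]
          by_cases h4 : q t = 1
          · rw [ho' t h4 h3 h1, h4]
          · exact b1 t h4
  have hz1 : h z ≠ 1 := by rw [hz0]; decide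
  have r1 := hf h hh k z hk hz1 (hcy ▸ hM y qy)
  have hsw : sw (up (sw h k z)) z.succ 0 = sw (up h) k.succ 0 := by
    funext t
    refine Fin.cases ?_ (fun t => ?_) t
    · rw [sw_l, sw_l, up_succ, up_succ, sw_l]
    · by_cases h1 : t = z
      · subst h1
        rw [sw_k, up_zero, gz]
      · rw [sw_o _ _ _ _ (by simpa using h1) (Fin.succ_ne_zero _), up_succ]
        by_cases h2 : t = k
        · subst h2
          rw [sw_k, sw_k, up_zero, hz0]
        · rw [sw_o _ _ _ _ h2 h1, wt t h2]
  have r2 := blkr q hq (up (sw h k z)) (hcy ▸ cell q hq y qy) z.succ 0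
    (by rw [up_succ, sw_l, hk]) (by rw [up_zero]; decide) (by rw [hsw]; exact hs)
  have r3 := he y qy
  rw [← hcy] at r3
  rw [hsw] at r2
  have c1 := btw_z h k z hz1
  have c2 := btw_z (up (sw h k z)) z.succ 0 (by rw [up_zero]; decide)
  have c3 := btw_z (up h) k.succ 0 (by rw [up_zero]; decide)
  have e2 : (act (up (sw h k z))).erase z.succ = ((act h).erase k).map (Fin.succEmb n) := by
    rw [act_up, act_sw h k z hk hz1, Finset.map_insert]
    rw [show (Fin.succEmb n) z = z.succ from rfl, Finset.erase_insert]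
    simp [act, hz1]
  have e3 : (act (up h)).erase k.succ = ((act h).erase k).map (Fin.succEmb n) := by
    rw [act_up, Finset.map_erase]
    rfl
  rw [e2, Finset.sum_map] at c2
  rw [e3, Finset.sum_map] at c3
  have t0 : ∀ s : Fin n, ta (Fin.succEmb n s) 0 = 1 := by
    intro s
    simp [ta]
  have ts : ∀ s t : Fin n, ta (Fin.succEmb n s) t.succ = ta s t := by
    intro s t
    simp [ta]
  have key : ((H54.RH.btw h k z : ℕ) : ZMod 2) +
      ((H54.RH.btw (up (sw h k z)) z.succ 0 : ℕ) : ZMod 2) +
      ((H54.RH.btw (up h) k.succ 0 : ℕ) : ZMod 2) = 0 := by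
    rw [c1, c2, c3, ← Finset.sum_add_distrib, ← Finset.sum_add_distrib]
    refine Finset.sum_eq_zero fun s _ => ?_
    rw [t0, ts, ts]
    have two0 : (2 : ZMod 2) = 0 := by decide
    linear_combination (ta s k + ta s z + 1) * two0
  have two0 : (2 : ZMod 2) = 0 := by decide
  linear_combination r1 + r2 - r3 + key +
    (1 - ((H54.RH.btw (up h) k.succ 0 : ℕ) : ZMod 2)) * two0

theorem pf_SO (h0 : T_SA) : T_SO := by
  intro n b M q hG hF hO
  rw [orw_iff] at hO ⊢
  obtain ⟨f, hf⟩ := hO
  have hSA := h0 n b M q hG hF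
  obtain ⟨hq4, hFM⟩ := hF
  obtain ⟨w0, hw0'⟩ : (act q).Nonempty := by
    rw [← Finset.card_pos, hq4]; norm_num
  have hw0 : q w0 = 1 := by simpa [act] using hw0'
  have two0 : (2 : ZMod 2) = 0 := by decide
  have he : ∀ w, q w = 1 → Bb (act (Fin.cons 1 q : W (n + 1))) (up (Function.update q w 2)) +
      f (Function.update q w 2) =
      Bb (act (Fin.cons 1 q : W (n + 1))) (up (Function.update q w0 2)) +
      f (Function.update q w0 2) := by
    intro w hw
    by_cases h1 : w = w0
    · subst h1; rfl
    · have h2 : sw (Function.update q w0 2) w w0 = Function.update q w 2 := by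
        funext t
        by_cases h3 : t = w
        · subst h3; rw [sw_k, Function.update_self, Function.update_self]
        · rw [Function.update_of_ne h3]
          by_cases h4 : t = w0
          · subst h4; rw [sw_l, Function.update_of_ne h1, hw, hw0]
          · rw [sw_o _ _ _ _ h3 h4, Function.update_of_ne h4]
      have a1 : Function.update q w0 2 w = 1 := by rw [Function.update_of_ne h1, hw]
      have a2 : Function.update q w0 2 w0 ≠ 1 := by rw [Function.update_self]; decide
      have r1 := hf _ (hFM w0 hw0) w w0 a1 a2 (h2 ▸ hFM w hw)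
      have r2 := blkr q hq4 _ (cell q hq4 w0 hw0) w.succ w0.succ (by rw [up_succ, a1])
        (by rw [up_succ]; exact a2) (by rw [up_sw, h2]; exact cell q hq4 w hw)
      rw [up_sw, btw_up] at r2
      rw [h2] at r1 r2
      linear_combination r1 + r2 + (- f (Function.update q w0 2)
        - Bb (act (Fin.cons 1 q : W (n + 1))) (up (Function.update q w0 2)) +
        1 + ((H54.RH.btw (Function.update q w0 2) w w0 : ℕ) : ZMod 2)) * two0
  generalize hE : Bb (act (Fin.cons 1 q : W (n + 1))) (up (Function.update q w0 2)) +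
      f (Function.update q w0 2) = e at he
  have mx := mixed q hq4 M hFM f hf e he
  refine ⟨fun g => if g 0 = 0 then f (Fin.tail g) else
    1 + Bb (act (Fin.cons 1 q : W (n + 1))) g + e, ?_⟩
  intro g hg k l hk hl hm
  beta_reduce
  have hkl : k ≠ l := fun h => hl (h ▸ hk)
  rw [hSA] at hg hm
  by_cases g0 : g 0 = 0
  · rcases hg with ⟨h, hh, hc, rfl⟩ | hg
    swap
    · exact absurd g0 hg.2
    rw [if_pos g0]
    have hk0 : k ≠ 0 := by rintro rfl; rw [g0] at hk; exact absurd hk (by decide)
    obtain ⟨k, rfl⟩ : ∃ k' : Fin n, k = k'.succ := ⟨k.pred hk0, (Fin.succ_pred _ _).symm⟩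
    by_cases hl0 : l = 0
    · subst hl0
      have g1 : sw (up h) k.succ 0 0 ≠ 0 := by
        rw [sw_l, hk]; decide
      rw [if_neg g1]
      rcases hm with ⟨h', _, _, h2⟩ | hm
      · rw [h2] at g1; exact absurd rfl g1
      · exact mx h hh hc k hk hm.1
    · obtain ⟨l, rfl⟩ : ∃ l' : Fin n, l = l'.succ := ⟨l.pred hl0, (Fin.succ_pred _ _).symm⟩
      rw [up_sw, if_pos (up_zero _), btw_up]
      rw [up_sw] at hm
      rcases hm with ⟨h', hh', _, h2⟩ | hm
      · have h3 : sw h k l = h' := by
          have := congrArg Fin.tail h2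
          simpa [up] using this
        exact hf h hh k l hk hl (h3 ▸ hh')
      · exact absurd (up_zero _) hm.2
  · have hgb : g ∈ blk q := by
      rcases hg with ⟨h, _, _, rfl⟩ | hg
      · exact absurd (up_zero _) g0
      · exact hg.1
    rw [if_neg g0]
    by_cases g1 : sw g k l 0 = 0
    · rw [if_pos g1]
      rcases hm with ⟨h', hh', hc', h2⟩ | hm
      swap
      · exact absurd g1 hm.2
      have hk0 : k = 0 := by
        by_contra h3
        by_cases h4 : l = 0
        · subst h4
          rw [sw_l, hk] at g1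
          exact absurd g1 (by decide)
        · rw [sw_o _ _ _ _ (Ne.symm h3) (Ne.symm h4)] at g1
          exact g0 g1
      subst hk0
      obtain ⟨l, rfl⟩ : ∃ l' : Fin n, l = l'.succ :=
        ⟨l.pred hkl.symm, (Fin.succ_pred _ _).symm⟩
      have h3 : h' l = 1 := by
        rw [← up_succ h' l, ← h2, sw_l, hk]
      have h4 : sw (up h') l.succ 0 = g := by
        rw [← h2]
        funext t
        by_cases t1 : t = 0
        · subst t1; rw [sw_l, sw_l]
        · by_cases t2 : t = l.succ
          · subst t2; rw [sw_k, sw_k]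
          · rw [sw_o _ _ _ _ t2 t1, sw_o _ _ _ _ t1 t2]
      have h5 := mx h' hh' hc' l h3 (by rw [h4]; exact hgb)
      rw [h4] at h5
      have h6 : H54.RH.btw (up h') l.succ 0 = H54.RH.btw g 0 l.succ := by
        rw [← h2]; exact btw_symm g 0 l.succ hk hl
      have h7 : Fin.tail (sw g 0 l.succ) = h' := by rw [h2]; simp [up]
      rw [h7, ← h6]
      linear_combination h5
    · rw [if_neg g1]
      rcases hm with ⟨h', _, _, h2⟩ | hm
      · rw [h2] at g1; exact absurd rfl g1
      · have := blkr q hq4 g hgb k l hk hl hm.1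
        linear_combination this + (1 + e) * two0

end Pool.Agent.H59.RHX
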